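import Mathlib

open Finset Polynomial

namespace Pool.Agent.Results.MP_74870a_nt.Blocks

/-- the `q`-shifted factorial `(a; b)_k`. -/
noncomputable def qp (a b : RatFunc ℚ) (k : ℕ) : RatFunc ℚ := ∏ i ∈ range k, (1 - a * b ^ i)

/-- the rational function `R_t(q)`. -/
noncomputable def R (n t : ℕ) : RatFunc ℚ :=
  qp RatFunc.X (RatFunc.X ^ 2) ((n ^ t - 1) / 4) *
      qp (RatFunc.X ^ (2 * n)) (RatFunc.X ^ (2 * n)) ((n ^ (t - 1) - 1) / 4) /
    (qp (RatFunc.X ^ 2) (RatFunc.X ^ 2) ((n ^ t - 1) / 4) *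
      qp (RatFunc.X ^ n) (RatFunc.X ^ (2 * n)) ((n ^ (t - 1) - 1) / 4))

section
variable {M : Type} [CommMonoid M]

def Z (n p h : ℕ) (F : ℕ → M) : M :=
  ∏ j ∈ range (h + 1), if j % 2 = p % 2 ∧ ¬n ∣ j then F j else 1

lemma Z_eq (n p : ℕ) (hp : p = 1 ∨ p = 2) (F : ℕ → M) (m : ℕ) :
    Z n p (2 * m) F = ∏ k ∈ range m, if ¬n ∣ 2 * k + p then F (2 * k + p) else 1 := by
  induction m with
  | zero => simp [Z]
  | succ m ih =>
    rw [prod_range_succ, ← ih, Z, Z, show 2 * (m + 1) + 1 = 2 * m + 1 + 1 + 1 by ring,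
      prod_range_succ, prod_range_succ, mul_assoc]
    congr 1
    rcases hp with rfl | rfl
    · rw [if_neg (c := _ ∧ ¬n ∣ 2 * m + 1 + 1) (by omega), mul_one]
      exact if_congr (by omega) rfl rfl
    · rw [if_neg (c := _ ∧ ¬n ∣ 2 * m + 1) (by omega), one_mul]
      exact if_congr (and_iff_right (by omega)) rfl rfl

lemma split (n p : ℕ) (hp : p = 1 ∨ p = 2) (F : ℕ → M) (m m' : ℕ)
    (h : 4 * m + 1 = n * (4 * m' + 1)) :
    ∏ k ∈ range m, F (2 * k + p) = Z n p (2 * m) F * ∏ k ∈ range m', F (n * (2 * k + p)) := by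
  obtain ⟨e, rfl⟩ : ∃ e, n = 2 * e + 1 := by
    have : Odd (n * (4 * m' + 1)) := h ▸ ⟨2 * m, by ring⟩
    exact (Nat.odd_mul.1 this).1
  rw [Z_eq _ p hp, ← prod_filter, ← prod_filter_not_mul_prod_filter (range m)
    fun k => 2 * e + 1 ∣ 2 * k + p]
  congr 1
  symm
  have key : ∀ c, (2 * e + 1) * c ≤ 2 * m ↔ c ≤ 2 * m' := fun c => by
    constructor
    · intro l; by_contra hc
      have := Nat.mul_le_mul_left (2 * e + 1) (show 4 * m' + 2 ≤ 2 * c by omega)
      nlinarith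
    · intro l
      have := Nat.mul_le_mul_left (2 * e + 1) (show 2 * c + 1 ≤ 4 * m' + 1 by omega)
      nlinarith
  have e1 : ∀ k, 2 * ((2 * e + 1) * k + p * e) + p = (2 * e + 1) * (2 * k + p) := fun k => by ring
  refine prod_bij (fun k _ => (2 * e + 1) * k + p * e) (fun k hk => ?_) (fun a _ b _ e => ?_)
    (fun k hk => ?_) fun k _ => by rw [e1]
  · have := (key (2 * k + p)).2 (by have := mem_range.1 hk; omega)
    rw [mem_filter, mem_range, e1]
    exact ⟨by have := e1 k; omega, dvd_mul_right _ _⟩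
  · exact Nat.eq_of_mul_eq_mul_left (Nat.succ_pos _) (Nat.add_right_cancel e)
  · obtain ⟨h1, c, hc⟩ := mem_filter.1 hk
    have h2 := (key c).1 (by have := mem_range.1 h1; omega)
    have h3 : (2 * e + 1) * c = 2 * (e * c) + c := by ring
    have h4 : c ≠ 0 := by rintro rfl; omega
    obtain ⟨k', rfl⟩ : ∃ k', c = 2 * k' + p := ⟨(c - p) / 2, by omega⟩
    exact ⟨k', mem_range.2 (by omega), by have := e1 k'; omega⟩

lemma block (n p H a : ℕ) (hn : n ∣ 2 * H + 1) (g c : ℕ → M) (x : M)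
    (hg : ∀ i ≤ H, g ((a + 1) * (2 * H + 1) - i) * g ((a + 1) * (2 * H + 1) + i) = x * c i) :
    Z n p (H + (a + 1) * (2 * H + 1)) g =
      Z n p (H + a * (2 * H + 1)) g * (Z n (p + a + 1) H (fun _ => x) * Z n (p + a + 1) H c) := by
  have mid : ∀ ψ : ℕ → M, ∏ t ∈ range (H + (H + 1)), ψ t =
      (∏ t ∈ range H, ψ (H - 1 - t) * ψ (H + (t + 1))) * ψ H := fun ψ => by
    rw [prod_range_add, prod_range_succ', prod_mul_distrib, prod_range_reflect ψ, mul_assoc]; rfl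
  have hd : n ∣ (a + 1) * (2 * H + 1) := hn.mul_left _
  have e0 : (a + 1) * (2 * H + 1) = a * (2 * H + 1) + 2 * H + 1 := by ring
  have e1 : a * (2 * H + 1) = 2 * (a * H) + a := by ring
  rw [Z, Z, show H + (a + 1) * (2 * H + 1) + 1 = H + a * (2 * H + 1) + 1 + (H + (H + 1)) by ring,
    prod_range_add _ (H + a * (2 * H + 1) + 1), mid, Z, Z, ← prod_mul_distrib,
    prod_range_succ' _ H, if_neg (c := _ ∧ ¬n ∣ _ + 1 + H) (fun h => h.2 (by
      rwa [show H + a * (2 * H + 1) + 1 + H = (a + 1) * (2 * H + 1) by omega])),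
    if_neg (c := _ ∧ ¬n ∣ 0) (by simp), if_neg (c := _ ∧ ¬n ∣ 0) (by simp), mul_one, mul_one,
    mul_one]
  congr 1
  refine prod_congr rfl fun t ht => ?_
  have := mem_range.1 ht
  rw [show H + a * (2 * H + 1) + 1 + (H - 1 - t) = (a + 1) * (2 * H + 1) - (t + 1) by omega,
    show H + a * (2 * H + 1) + 1 + (H + (t + 1)) = (a + 1) * (2 * H + 1) + (t + 1) by omega]
  have d1 : n ∣ (a + 1) * (2 * H + 1) - (t + 1) ↔ n ∣ t + 1 :=
    Nat.dvd_sub_iff_right (by omega) hd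
  have d2 : n ∣ (a + 1) * (2 * H + 1) + (t + 1) ↔ n ∣ t + 1 := Nat.dvd_add_right hd
  by_cases h : (t + 1) % 2 = (p + a + 1) % 2 ∧ ¬n ∣ t + 1
  · rw [if_pos h, if_pos h, if_pos ⟨by omega, mt d1.1 h.2⟩, if_pos ⟨by omega, mt d2.1 h.2⟩, hg _ this]
  · rw [if_neg h, if_neg h, if_neg fun k => h ⟨by omega, mt d1.2 k.2⟩,
      if_neg fun k => h ⟨by omega, mt d2.2 k.2⟩]

lemma Z_map {M' : Type} [CommMonoid M'] (f : M →* M') (n p h : ℕ) (F : ℕ → M) :
    f (Z n p h F) = Z n p h fun j => f (F j) := by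
  simp [Z, apply_ite f]

lemma Z_par (n p h : ℕ) (F : ℕ → M) : Z n (p + 2) h F = Z n p h F := by simp [Z]

lemma Z_const (n m m' : ℕ) (h : 4 * m + 1 = n * (4 * m' + 1)) (x : M) :
    Z n 1 (2 * m) (fun _ => x) = Z n 2 (2 * m) fun _ => x := by
  have := fun p => Z_map (powersHom M x) n p (2 * m) fun _ => Multiplicative.ofAdd 1
  simp only [powersHom_apply, toAdd_ofAdd, pow_one] at this
  rw [← this, ← this, mul_right_cancel ((split n 1 (.inl rfl) (fun _ => Multiplicative.ofAdd 1)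
    m m' h).symm.trans (split n 2 (.inr rfl) (fun _ => Multiplicative.ofAdd 1) m m' h))]

end

lemma cong {S : Type} [CommRing S] (q : S) (n m m' : ℕ) (h : 4 * m + 1 = n * (4 * m' + 1))
    (hq : (q ^ (4 * m + 1) - 1) ^ 2 = 0) (b : ℕ) :
    Z n 1 (2 * m + 2 * b * (4 * m + 1)) (fun j => 1 - q ^ j) * Z n 2 (2 * m) (fun j => 1 - q ^ j) =
    Z n 1 (2 * m) (fun j => 1 - q ^ j) *
      Z n 2 (2 * m + 2 * b * (4 * m + 1)) (fun j => 1 - q ^ j) := by
  have hu : q * (q ^ (4 * m) * (2 - q ^ (4 * m + 1))) = 1 := by linear_combination -hq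
  set w := q ^ (4 * m) * (2 - q ^ (4 * m + 1))
  have e : 4 * m + 1 = 2 * (2 * m) + 1 := by ring
  have bl := fun p a => block n p (2 * m) a (e ▸ h ▸ dvd_mul_right _ _) (fun j => 1 - q ^ j)
    (fun i => -(1 - q ^ i) ^ 2 * w ^ i) (q ^ ((a + 1) * (2 * (2 * m) + 1))) fun i hi => by
      obtain ⟨y, hy⟩ := sub_one_dvd_pow_sub_one (q ^ (4 * m + 1)) (a + 1)
      rw [← pow_mul, mul_comm (4 * m + 1), e] at hy
      rw [e] at hq
      have h1 : q ^ i * w ^ i = 1 := by rw [← mul_pow, hu, one_pow]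
      have h2 : q ^ ((a + 1) * (2 * (2 * m) + 1) - i) * q ^ i = q ^ ((a + 1) * (2 * (2 * m) + 1)) :=
        pow_sub_mul_pow _ (by nlinarith)
      rw [pow_add]
      set x := q ^ ((a + 1) * (2 * (2 * m) + 1))
      set u := q ^ ((a + 1) * (2 * (2 * m) + 1) - i)
      have h3 : (x - 1) ^ 2 = 0 := by rw [hy, mul_pow, hq, zero_mul]
      have h4 : u = x * w ^ i := by linear_combination w ^ i * h2 - u * h1
      rw [h4]
      linear_combination h3 + (x ^ 2 - 2 * x + x * q ^ i) * h1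
  rw [e]
  induction b with
  | zero => simp
  | succ b ih =>
    have k : ∀ (r : ℕ) (F : ℕ → S), Z n (r + 2 * b) (2 * m) F = Z n r (2 * m) F := fun r F => by
      simp [Z]
    rw [show 2 * (b + 1) = 2 * b + 1 + 1 by ring, bl, bl, bl, bl]
    simp only [show 1 + 2 * b + 1 = 2 + 2 * b by ring, show 1 + (2 * b + 1) + 1 = 1 + 2 + 2 * b by ring,
      show 2 + 2 * b + 1 = 1 + 2 + 2 * b by ring, show 2 + (2 * b + 1) + 1 = 2 + 2 + 2 * b by ring,
      k, Z_par _ 1, Z_par _ 2, Z_const n m m' h]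
    have : ∀ a b c d x y z t : S, a * b = c * d →
        a * (x * y) * (z * t) * b = c * (d * (x * t) * (z * y)) := fun a b c d x y z t h => by
      linear_combination x * y * z * t * h
    exact this _ _ _ _ _ _ _ _ ih

lemma R_eq (n t m m' : ℕ) (h : 4 * m + 1 = n * (4 * m' + 1)) (h1 : (n ^ t - 1) / 4 = m)
    (h2 : (n ^ (t - 1) - 1) / 4 = m') (hn : n ≠ 0) :
    R n t = algebraMap ℚ[X] (RatFunc ℚ) (Z n 1 (2 * m) fun j => 1 - X ^ j) /
      algebraMap ℚ[X] (RatFunc ℚ) (Z n 2 (2 * m) fun j => 1 - X ^ j) := by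
  have hm := fun p => Z_map (algebraMap ℚ[X] (RatFunc ℚ)).toMonoidHom n p (2 * m) fun j => 1 - X ^ j
  simp only [RingHom.toMonoidHom_eq_coe, MonoidHom.coe_coe, map_sub, map_one, map_pow,
    RatFunc.algebraMap_X] at hm
  have q : ∀ a b k, qp (RatFunc.X ^ a) (RatFunc.X ^ b) k =
      ∏ i ∈ range k, (1 - RatFunc.X ^ (a + b * i)) := fun a b k => by
    simp only [qp, pow_add, pow_mul]
  have nz : ∀ p, p ≠ 0 → ∏ k ∈ range m', (1 - (RatFunc.X : RatFunc ℚ) ^ (n * (2 * k + p))) ≠ 0 := by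
    intro p hp
    refine prod_ne_zero_iff.2 fun k _ h => ?_
    have : algebraMap ℚ[X] (RatFunc ℚ) (X ^ (n * (2 * k + p)) - C 1) = 0 := by
      simp [← sub_eq_zero.1 h]
    exact X_pow_sub_C_ne_zero (by positivity) _ (RatFunc.algebraMap_injective _ (this.trans
      (map_zero _).symm))
  have s1 := split n 1 (.inl rfl) (fun j => 1 - (RatFunc.X : RatFunc ℚ) ^ j) m m' h
  have s2 := split n 2 (.inr rfl) (fun j => 1 - (RatFunc.X : RatFunc ℚ) ^ j) m m' h
  rw [R, h1, h2, hm, hm, ← pow_one RatFunc.X, ← pow_mul, ← pow_mul, ← pow_mul, q, q, q, q]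
  simp only [one_mul, pow_one, add_comm 1, add_comm 2,
    show ∀ i, 2 * n + 2 * n * i = n * (2 * i + 2) from fun i => by ring,
    show ∀ i, n + 2 * n * i = n * (2 * i + 1) from fun i => by ring, s1, s2]
  rw [mul_assoc, mul_assoc, mul_comm (∏ k ∈ range m', _), mul_div_mul_right _ _
    (mul_ne_zero (nz 2 two_ne_zero) (nz 1 one_ne_zero))]

lemma cop (n N p h : ℕ) (hN : 0 < N) (hn : n ∣ N) :
    IsCoprime (Z n p h fun j => 1 - X ^ j) (cyclotomic N ℚ) := by
  refine IsCoprime.prod_left fun j _ => ?_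
  split_ifs with hj
  · refine ((cyclotomic.irreducible_rat hN).coprime_iff_not_dvd.2 fun hd => hj.2 (hn.trans ?_)).symm
    have hζ := Complex.isPrimitiveRoot_exp N hN.ne'
    have := aeval_eq_zero_of_dvd_aeval_eq_zero hd (x := Complex.exp (2 * Real.pi * Complex.I / N))
      (by rw [aeval_def, eval₂_eq_eval_map, map_cyclotomic]; exact hζ.isRoot_cyclotomic hN)
    simp only [map_sub, map_one, map_pow, aeval_X, sub_eq_zero] at this
    exact (hζ.pow_eq_one_iff_dvd j).1 this.symm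
  · exact isCoprime_one_left

theorem result (n : ℕ) (hn : n % 4 = 1) (h1 : 1 < n) (r s : ℕ) (hs : 1 ≤ s) (hrs : s < r) :
    cyclotomic (n ^ s) ℚ ^ 2 ∣ (R n r - R n s).num ∧
      IsCoprime (R n r - R n s).denom (cyclotomic (n ^ s) ℚ ^ 2) := by
  have h4 : ∀ t, ∃ m, n ^ t = 4 * m + 1 := fun t =>
    ⟨n ^ t / 4, by have : n ^ t % 4 = 1 := by rw [Nat.pow_mod, hn]; simp
                   omega⟩
  choose μ hμ using h4
  have e : ∀ t, 1 ≤ t → R n t = _ := fun t ht => R_eq n t (μ t) (μ (t - 1))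
    (by rw [← hμ, ← hμ, ← pow_succ', Nat.sub_add_cancel ht]) (by rw [hμ]; omega)
    (by rw [hμ]; omega) (by omega)
  have hr : 2 * μ r = 2 * μ s + 2 * μ (r - s) * (4 * μ s + 1) := by
    have : n ^ r = n ^ s * n ^ (r - s) := by rw [← pow_add]; congr 1; omega
    rw [hμ, hμ, hμ] at this
    linarith
  have hN : 0 < n ^ s := by positivity
  have c := fun p h => cop n (n ^ s) p h hN (dvd_pow_self n (by omega))
  have nz : ∀ h, (Z n 2 h fun j => 1 - X ^ j : ℚ[X]) ≠ 0 := fun h h0 => by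
    have := c 2 h
    rw [h0, isCoprime_zero_left] at this
    exact (cyclotomic.irreducible_rat hN).not_isUnit this
  have inj := RatFunc.algebraMap_injective ℚ
  rw [e r (by omega), e s hs, div_sub_div _ _ ((map_ne_zero_iff _ inj).2 (nz _))
    ((map_ne_zero_iff _ inj).2 (nz _)), ← map_mul, ← map_mul, ← map_mul, ← map_sub]
  set A := (Z n 1 (2 * μ r) fun j => 1 - X ^ j : ℚ[X]) * (Z n 2 (2 * μ s) fun j => 1 - X ^ j) -
    (Z n 2 (2 * μ r) fun j => 1 - X ^ j) * Z n 1 (2 * μ s) fun j => 1 - X ^ j with hA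
  set B := (Z n 2 (2 * μ r) fun j => 1 - X ^ j : ℚ[X]) * Z n 2 (2 * μ s) fun j => 1 - X ^ j
  have hB : B ≠ 0 := mul_ne_zero (nz _) (nz _)
  have cB : IsCoprime B (cyclotomic (n ^ s) ℚ ^ 2) := ((c _ _).mul_left (c _ _)).pow_right
  have dA : cyclotomic (n ^ s) ℚ ^ 2 ∣ A := by
    refine (pow_dvd_pow_of_dvd (cyclotomic.dvd_X_pow_sub_one _ ℚ) 2).trans ?_
    rw [← Ideal.mem_span_singleton, ← Ideal.Quotient.eq_zero_iff_mem]
    set φ := Ideal.Quotient.mk (Ideal.span {((X : ℚ[X]) ^ n ^ s - 1) ^ 2})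
    have hm := fun p h => Z_map φ.toMonoidHom n p h fun j => 1 - X ^ j
    simp only [RingHom.toMonoidHom_eq_coe, MonoidHom.coe_coe, map_sub, map_one, map_pow] at hm
    have := cong (φ X) n (μ s) (μ (s - 1))
      (by rw [← hμ, ← hμ, ← pow_succ', Nat.sub_add_cancel hs]) (by
        rw [← hμ, ← map_pow, ← map_one φ, ← map_sub, ← map_pow]
        exact Ideal.Quotient.eq_zero_iff_mem.2 (Ideal.mem_span_singleton_self _)) (μ (r - s))
    rw [hA, map_sub, map_mul, map_mul, hm, hm, hm, hm, hr, this, mul_comm, sub_self]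
  refine ⟨cB.symm.dvd_of_dvd_mul_right ?_,
    cB.of_isCoprime_of_dvd_left ((RatFunc.denom_dvd hB).2 ⟨A, rfl⟩)⟩
  rw [(RatFunc.num_mul_eq_mul_denom_iff hB).2 rfl]
  exact dA.mul_right _

end Pool.Agent.Results.MP_74870a_nt.Blocks
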